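import Pool.Agent.Helper75.PX.Stmts

set_option autoImplicit false

open Polynomial Module

namespace Pool.Agent.Helper75.PX

universe u

namespace MIN38

theorem key {K D : Type u} [Field K] [DivisionRing D] [Algebra K D] [FiniteDimensional K D]
    (x : D) (hx : x ≠ 0) : ∃ Q : K[X], Q ≠ 0 ∧ Q.natDegree = (minpoly K x).natDegree ∧
      aeval x⁻¹ Q = 0 ∧
      ∀ i ≤ (minpoly K x).natDegree,
        Q.coeff i = (minpoly K x).coeff ((minpoly K x).natDegree - i) := by
  have hint : IsIntegral K x := Algebra.IsIntegral.isIntegral x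
  obtain ⟨P, hP⟩ : ∃ P, P = minpoly K x := ⟨_, rfl⟩
  obtain ⟨m, hm⟩ : ∃ m, m = P.natDegree := ⟨_, rfl⟩
  have h0 : P.coeff 0 ≠ 0 := by
    rw [hP]
    exact minpoly.coeff_zero_ne_zero hint hx
  have hc : ∀ i, (∑ j ∈ Finset.range (m + 1), monomial j (P.coeff (m - j))).coeff i =
      if i ≤ m then P.coeff (m - i) else 0 := by
    intro i
    rw [finsetSum_coeff]
    simp only [coeff_monomial]
    rw [Finset.sum_ite_eq' (Finset.range (m + 1)) i (fun j => P.coeff (m - j))]
    simp only [Finset.mem_range, Nat.lt_succ_iff]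
  rw [← hP, ← hm]
  refine ⟨∑ j ∈ Finset.range (m + 1), monomial j (P.coeff (m - j)), ?_, ?_, ?_, ?_⟩
  · intro h
    have h1 := hc m
    rw [h, coeff_zero, if_pos le_rfl, Nat.sub_self] at h1
    exact h0 h1.symm
  · refine le_antisymm ?_ ?_
    · rw [natDegree_le_iff_coeff_eq_zero]
      intro i hi
      rw [hc i, if_neg (by omega)]
    · refine le_natDegree_of_ne_zero ?_
      rw [hc m, if_pos le_rfl, Nat.sub_self]
      exact h0
  · have h1 : aeval x⁻¹ (∑ j ∈ Finset.range (m + 1), monomial j (P.coeff (m - j))) * x ^ m =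
        aeval x P := by
      rw [map_sum, Finset.sum_mul, aeval_eq_sum_range' (show P.natDegree < m + 1 by omega),
        ← Finset.sum_range_reflect]
      refine Finset.sum_congr rfl fun j hj => ?_
      rw [Finset.mem_range] at hj
      rw [aeval_monomial]
      have h2 : m + 1 - 1 - j = m - j := by omega
      rw [h2, mul_assoc, Nat.sub_sub_self (by omega), Algebra.smul_def]
      congr 1
      have h3 : x ^ m = x ^ (m - j) * x ^ j := by
        rw [← pow_add]
        congr 1
        omega
      rw [h3, ← mul_assoc, inv_pow, inv_mul_cancel₀ (pow_ne_zero _ hx), one_mul]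
    rw [hP, minpoly.aeval] at h1
    rw [← hP] at h1
    rcases mul_eq_zero.1 h1 with h | h
    · exact h
    · exact absurd h (pow_ne_zero _ hx)
  · intro i hi
    rw [hc i, if_pos hi]

theorem deg_le {K D : Type u} [Field K] [DivisionRing D] [Algebra K D] [FiniteDimensional K D]
    (x : D) (hx : x ≠ 0) : (minpoly K x⁻¹).natDegree ≤ (minpoly K x).natDegree := by
  obtain ⟨Q, hQ, hd, ha, -⟩ := key (K := K) x hx
  rw [← hd]
  exact natDegree_le_of_dvd (minpoly.dvd K _ ha) hQ

end MIN38

open MIN38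

/-- row MIN -/
theorem st_MIN : ST_MIN.{u} := by
  intro K D _ _ _ _ x hx
  have hdeg : (minpoly K x⁻¹).natDegree = (minpoly K x).natDegree := by
    refine le_antisymm (deg_le x hx) ?_
    have h := deg_le (K := K) x⁻¹ (inv_ne_zero hx)
    rwa [inv_inv] at h
  refine ⟨hdeg, ?_⟩
  intro h
  obtain ⟨Q, hQ, hd, ha, hc⟩ := key (K := K) x hx
  obtain ⟨R, hR⟩ := minpoly.dvd K _ ha
  have hR0 : R ≠ 0 := by
    rintro rfl
    rw [mul_zero] at hR
    exact hQ hR
  have hm0 : minpoly K x⁻¹ ≠ 0 := by
    intro h0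
    rw [h0, zero_mul] at hR
    exact hQ hR
  have hRd : R.natDegree = 0 := by
    have h1 : Q.natDegree = (minpoly K x⁻¹).natDegree + R.natDegree := by
      rw [hR]
      exact natDegree_mul hm0 hR0
    omega
  have hpos : 0 < (minpoly K x).natDegree :=
    minpoly.natDegree_pos (Algebra.IsIntegral.isIntegral x)
  have h2 := hc ((minpoly K x).natDegree - 1) (Nat.sub_le _ _)
  rw [Nat.sub_sub_self hpos, hR, eq_C_of_natDegree_eq_zero hRd, coeff_mul_C, h, zero_mul] at h2
  exact h2.symm

end Pool.Agent.Helper75.PX
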